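import Pool.Agent.FS.RevInv.Three
import Pool.Agent.FS.RevInv.Abs3
import Pool.Agent.FS.RevInv.Sour

/-!
In the group of formal maps of complex `n`-space, `n ≥ 2`, every element whose Jacobian
determinant at the origin is `1` or `-1` is a product of six involutions.
-/

set_option autoImplicit false

namespace Pool.Agent.Results.MP_9aaefc_al.SixInvolutions

open MvPowerSeries Pool.Agent.Lib.MP_9aaefc_al Pool.Agent.FS.RevInv

variable {n : ℕ}

/-- The Jacobian matrix at the origin: entry `(i, j)` is the coefficient of `x j` in `f i`. -/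
noncomputable def jac (f : Fin n → MvPowerSeries (Fin n) ℂ) : Matrix (Fin n) (Fin n) ℂ :=
  Matrix.of fun i j => coeff (Finsupp.single j 1) (f i)

/-- Formal maps: `n` power series in `n` variables with zero constant terms and invertible linear
part. -/
@[ext]
structure FormalMap (n : ℕ) where
  toFun : Fin n → MvPowerSeries (Fin n) ℂ
  const : ∀ i, constantCoeff (toFun i) = 0
  det_ne : (jac toFun).det ≠ 0

theorem FormalMap.hasSubst (f : FormalMap n) : HasSubst f.toFun :=
  hasSubst_of_constantCoeff_zero f.const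

theorem jac_subst {f g : Fin n → MvPowerSeries (Fin n) ℂ} (hf : ∀ i, constantCoeff (f i) = 0)
    (hg : ∀ i, constantCoeff (g i) = 0) : jac (fun i => subst g (f i)) = jac f * jac g := by
  ext i l
  exact coeff_single_subst hg (hf i) l

theorem jac_X : jac (fun i : Fin n => (X i : MvPowerSeries (Fin n) ℂ)) = 1 := by
  ext i j
  rw [Matrix.one_apply]
  exact coeff_single_X i j

theorem comp_const (f g : FormalMap n) (i : Fin n) :
    constantCoeff (subst g.toFun (f.toFun i) : MvPowerSeries (Fin n) ℂ) = 0 :=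
  constantCoeff_subst_eq_zero g.hasSubst g.const (f.const i)

theorem comp_det (f g : FormalMap n) : (jac fun i => subst g.toFun (f.toFun i)).det ≠ 0 := by
  rw [jac_subst f.const g.const, Matrix.det_mul]
  exact mul_ne_zero f.det_ne g.det_ne

theorem idMap_det : (jac fun i : Fin n => (X i : MvPowerSeries (Fin n) ℂ)).det ≠ 0 := by
  rw [jac_X, Matrix.det_one]
  exact one_ne_zero

/-- Formal composition `f ∘ g`: substitute `g` into each component of `f`. -/
noncomputable def comp (f g : FormalMap n) : FormalMap n :=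
  ⟨fun i => subst g.toFun (f.toFun i), comp_const f g, comp_det f g⟩

/-- The identity map `(x 1, ..., x n)`. -/
noncomputable def idMap (n : ℕ) : FormalMap n :=
  ⟨fun i => X i, fun i => constantCoeff_X i, idMap_det⟩

theorem det_ne_of_subst {f g : Fin n → MvPowerSeries (Fin n) ℂ}
    (hf : ∀ i, constantCoeff (f i) = 0) (hg : ∀ i, constantCoeff (g i) = 0)
    (h : ∀ i, subst g (f i) = (X i : MvPowerSeries (Fin n) ℂ)) :
    (jac f).det ≠ 0 ∧ (jac g).det ≠ 0 := by
  have h1 := jac_subst hf hg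
  rw [funext h, jac_X] at h1
  have h2 := congrArg Matrix.det h1
  rw [Matrix.det_one, Matrix.det_mul] at h2
  exact mul_ne_zero_iff.1 (h2 ▸ one_ne_zero)

theorem exists_inv (f : FormalMap n) : ∃ g : FormalMap n, comp g f = idMap n := by
  obtain ⟨G, hG, h1, h2⟩ := exists_inverse f.toFun f.const f.det_ne
  exact ⟨⟨G, hG, (det_ne_of_subst f.const hG h1).2⟩, FormalMap.ext (funext h2)⟩

theorem comp_assoc (f g h : FormalMap n) : comp (comp f g) h = comp f (comp g h) :=
  FormalMap.ext (funext fun i => subst_comp_subst_apply g.hasSubst h.hasSubst (f.toFun i))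

theorem id_comp (f : FormalMap n) : comp (idMap n) f = f :=
  FormalMap.ext (funext fun i => subst_X f.hasSubst i)

theorem comp_id (f : FormalMap n) : comp f (idMap n) = f :=
  FormalMap.ext (funext fun i => congrFun subst_self (f.toFun i))

/-- The group of formal maps under composition. -/
noncomputable instance group : Group (FormalMap n) where
  mul := comp
  one := idMap n
  inv f := (exists_inv f).choose
  mul_assoc := comp_assoc
  one_mul := id_comp
  mul_one := comp_id
  inv_mul_cancel f := (exists_inv f).choose_spec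

theorem mul_toFun (f g : FormalMap n) (i : Fin n) :
    (f * g).toFun i = subst g.toFun (f.toFun i) := rfl

theorem one_toFun (i : Fin n) : (1 : FormalMap n).toFun i = X i := rfl

theorem mul_sig (f g : FormalMap n) (i : Fin n) :
    (f * g).toFun i = sig g.toFun g.const (f.toFun i) := (sig_apply _ _ _).symm

theorem jac_congr {f g : Fin n → PS n} (h : ∀ i, f i - g i ∈ ordI n 2) : jac f = jac g := by
  ext i j
  have := mem_ordI_iff.1 (h i) (Finsupp.single j 1) (by simp)
  rwa [map_sub, sub_eq_zero] at this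

theorem const_congr {f g : Fin n → PS n} (h : ∀ i, f i - g i ∈ ordI n 2)
    (hg : ∀ i, constantCoeff (g i) = 0) (i : Fin n) : constantCoeff (f i) = 0 := by
  have := mem_one_iff.1 (ordI_anti (by norm_num) (h i))
  rwa [map_sub, hg, sub_zero] at this

theorem exists_con (k : ℕ) : ∃ c : Con (FormalMap n),
    ∀ a b, c a b ↔ ∀ i, a.toFun i - b.toFun i ∈ ordI n k := by
  refine ⟨⟨⟨fun a b => ∀ i, a.toFun i - b.toFun i ∈ ordI n k, fun a i => ?_,
    fun h i => ?_, fun h h' i => ?_⟩, fun {w x y z} h h' i => ?_⟩, fun _ _ => Iff.rfl⟩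
  · rw [sub_self]
    exact Ideal.zero_mem _
  · rw [← neg_sub]
    exact neg_mem (h i)
  · simpa using Ideal.add_mem _ (h i) (h' i)
  · have h1 := sig_mem y.toFun y.const (h i)
    have h2 := sig_congr y.const z.const h' (x.toFun i)
    rw [map_sub] at h1
    rw [mul_sig, mul_sig]
    simpa using Ideal.add_mem _ h1 h2

theorem delta_mul {k : ℕ} {x y : FormalMap n} {u v : Fin n → PS n}
    (hu : u ∈ ordV n (k + 2)) (hv : v ∈ ordV n (k + 2))
    (hx : ∀ i, x.toFun i - X i - u i ∈ ordI n (k + 3))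
    (hy : ∀ i, y.toFun i - X i - v i ∈ ordI n (k + 3)) (i : Fin n) :
    (x * y).toFun i - X i - (u + v) i ∈ ordI n (k + 3) := by
  have h0 : ∀ i, sig y.toFun y.const (X i) - X i ∈ ordI n 2 := fun i => by
    rw [sig_X]
    simpa using Ideal.add_mem _ (ordI_anti (by omega : 2 ≤ k + 3) (hy i))
      (ordI_anti (by omega : 2 ≤ k + 2) (mem_ordV.1 hv i))
  have h1 := unip_step _ (fun _ _ => sig_mem y.toFun y.const) h0 _ _ (mem_ordV.1 hu i)
  have h2 := sig_mem y.toFun y.const (hx i)
  rw [map_sub, map_sub, sig_X] at h2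
  rw [mul_sig, Pi.add_apply]
  convert Ideal.add_mem _ (Ideal.add_mem _ h1 h2) (hy i) using 1
  ring

theorem exists_lin (A : Matrix (Fin n) (Fin n) ℂ) (hA : A * A = 1) :
    ∃ J : FormalMap n, jac J.toFun = A ∧ J * J = 1 ∧ ∀ (h : FormalMap n) (v : Fin n → PS n),
      (∀ i, h.toFun i = X i + v i) → ∀ i, (J * h * J).toFun i = X i + rho A v i := by
  have hj : jac (lin A) = A := by
    ext i j
    simp [jac, lin, coeff_single_X]
  have hdet : (jac (lin A)).det ≠ 0 := by
    have := congrArg Matrix.det hA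
    rw [Matrix.det_mul, Matrix.det_one] at this
    rw [hj]
    exact left_ne_zero_of_mul (this ▸ one_ne_zero)
  have hl : ∀ i, ∑ j, A i j • lin A j = (X i : PS n) := by
    intro i
    simp only [lin, Finset.smul_sum, smul_smul]
    rw [Finset.sum_comm]
    simp only [← Finset.sum_smul, ← Matrix.mul_apply, hA, Matrix.one_apply]
    simp
  have key : ∀ (h : FormalMap n) (v : Fin n → PS n), (∀ i, h.toFun i = X i + v i) → ∀ i,
      ((⟨lin A, lin_const A, hdet⟩ : FormalMap n) * h * ⟨lin A, lin_const A, hdet⟩).toFun i =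
        X i + rho A v i := by
    intro h v hv i
    rw [mul_sig, mul_sig, rho_apply, ← hl]
    show sig (lin A) (lin_const A) (sig h.toFun h.const (∑ j, A i j • X j)) = _
    simp only [map_sum, map_smul, sig_X, hv, map_add, smul_add, Finset.sum_add_distrib]
  refine ⟨⟨lin A, lin_const A, hdet⟩, hj, FormalMap.ext (funext fun i => ?_), key⟩
  have := key 1 0 (fun i => (add_zero _).symm) i
  rwa [mul_one, map_zero, Pi.zero_apply, add_zero] at this

theorem delta_cm {k : ℕ} {A : Matrix (Fin n) (Fin n) ℂ} {J : FormalMap n}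
    (hJ : ∀ (h : FormalMap n) (v : Fin n → PS n),
      (∀ i, h.toFun i = X i + v i) → ∀ i, (J * h * J).toFun i = X i + rho A v i)
    {v : Fin n → PS n} (hv : v ∈ ordV n (k + 2)) : ∃ h : FormalMap n,
      (∀ i, h.toFun i - X i ∈ ordI n (k + 2)) ∧
        ∀ i, (cm h J).toFun i - X i - (v - rho A v) i ∈ ordI n (k + 3) := by
  have h2 : ∀ i, X i + v i - X i ∈ ordI n 2 := fun i => by
    rw [add_sub_cancel_left]
    exact ordI_anti (by omega) (mem_ordV.1 hv i)
  let h : FormalMap n := ⟨fun i => X i + v i, const_congr h2 fun i => constantCoeff_X i,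
    by rw [jac_congr h2]; exact idMap_det⟩
  have hh : ∀ i, h.toFun i - X i - v i ∈ ordI n (k + 3) := fun i => by
    simp [h]
  have hh' : ∀ i, h.toFun i - X i ∈ ordI n (k + 2) := fun i => by
    simpa [h] using mem_ordV.1 hv i
  obtain ⟨c, hc⟩ := exists_con (n := n) (k + 2)
  let w : Fin n → PS n := fun i => (h⁻¹).toFun i - X i
  have hw : w ∈ ordV n (k + 2) := mem_ordV.2 ((hc _ _).1 (FS.RevInv.inv_mem c ((hc h 1).2 hh')))
  have h3 : v + w ∈ ordV n (k + 3) := mem_ordV.2 fun i => by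
    have := delta_mul (y := h⁻¹) hv hw hh (fun i => by simp [w]) i
    rw [mul_inv_cancel, one_toFun, sub_self, zero_sub] at this
    exact neg_mem_iff.1 this
  refine ⟨h, hh', fun i => ?_⟩
  have h4 := delta_mul (y := J * h⁻¹ * J) hv (rho_mem A hw) hh (fun i => by
    rw [hJ h⁻¹ w (fun i => by simp [w]) i]
    simp) i
  have h5 := mem_ordV.1 (rho_mem A h3) i
  have e : cm h J = h * (J * h⁻¹ * J) := by simp only [cm, mul_assoc]
  rw [e]
  convert Ideal.add_mem _ h4 h5 using 1
  simp only [map_add, Pi.add_apply, Pi.sub_apply]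
  ring

theorem delta_conj {k : ℕ} {A : Matrix (Fin n) (Fin n) ℂ} {J x : FormalMap n}
    (hJ : ∀ (h : FormalMap n) (v : Fin n → PS n),
      (∀ i, h.toFun i = X i + v i) → ∀ i, (J * h * J).toFun i = X i + rho A v i)
    {u : Fin n → PS n} (hx : ∀ i, x.toFun i - X i - u i ∈ ordI n k) (i : Fin n) :
    (J * x * J).toFun i - X i - rho A u i ∈ ordI n k := by
  have h1 : (fun i => x.toFun i - X i) - u ∈ ordV n k := mem_ordV.2 hx
  have h2 := mem_ordV.1 (rho_mem A h1) i
  rw [map_sub, Pi.sub_apply] at h2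
  rwa [hJ x (fun i => x.toFun i - X i) (fun i => by simp) i, add_sub_cancel_left]

theorem jac_mul (f g : FormalMap n) : jac (f * g).toFun = jac f.toFun * jac g.toFun :=
  jac_subst f.const g.const

theorem jac_lin (A : Matrix (Fin n) (Fin n) ℂ) : jac (lin A) = A := by
  ext i j
  simp [jac, lin, coeff_single_X]

theorem tangent (m : ℕ) : ∃ J : Fin 3 → FormalMap (m + 2), (∀ a, J a * J a = 1) ∧
    (∃ μ : Fin (m + 2) → ℂ, Function.Injective μ ∧
      ∀ p, μ p ∈ spectrum ℂ (jac (J 0 * J 1 * J 2).toFun)) ∧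
    ∀ f : FormalMap (m + 2), jac f.toFun = 1 → ∃ g, f = prod3 J g := by
  obtain ⟨A, hA, hspec, hspan⟩ := exists_three m
  choose J hJA hJ hJc using fun a => exists_lin (A a) (hA a)
  choose c hc using exists_con (n := m + 2)
  refine ⟨J, hJ, by simpa only [jac_mul, hJA] using hspec, fun f hf => ?_⟩
  exact approx3 c J hJ
    (fun k a b h => (hc _ _ _).2 fun i => ordI_anti (by omega) ((hc _ _ _).1 h i))
    (fun a b h => FormalMap.ext (funext fun i => eq_of_forall_sub_mem fun k =>
      ordI_anti (by omega) ((hc _ _ _).1 (h k) i)))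
    (by
      intro a ha
      have chain : ∀ l t, l ≤ t → ∀ i, (a t).toFun i - (a l).toFun i ∈ ordI (m + 2) (l + 2) := by
        intro l t hlt i
        induction t, hlt using Nat.le_induction with
        | base =>
          rw [sub_self]
          exact Ideal.zero_mem _
        | succ t hlt ih =>
          simpa using Ideal.add_mem _ (ordI_anti (by omega : l + 2 ≤ t + 2)
            ((hc _ _ _).1 (ha t) i)) ih
      let K : Fin (m + 2) → PS (m + 2) := fun i d => coeff d ((a d.degree).toFun i)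
      have hK : ∀ k i, K i - (a k).toFun i ∈ ordI (m + 2) (k + 2) := by
        intro k i
        rw [mem_ordI_iff]
        intro d hd
        have e : coeff d (K i) = coeff d ((a d.degree).toFun i) := rfl
        rw [map_sub, e, sub_eq_zero]
        rcases le_total d.degree k with h | h
        · have := mem_ordI_iff.1 (chain _ _ h i) d (by omega)
          rw [map_sub, sub_eq_zero] at this
          exact this.symm
        · have := mem_ordI_iff.1 (chain _ _ h i) d hd
          rwa [map_sub, sub_eq_zero] at this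
      exact ⟨⟨K, const_congr (hK 0) (a 0).const, by rw [jac_congr (hK 0)]; exact (a 0).det_ne⟩,
        fun k => (hc _ _ _).2 (hK k)⟩)
    (by
      intro k a b ha hb
      rw [hc] at ha hb ⊢
      intro i
      have h1 := unip_step _ (fun _ _ => sig_mem a.toFun a.const)
        (fun i => by rw [sig_X]; exact ha i) _ _ (hb i)
      have h2 := unip_step' (k + 1) _ (fun _ _ => sig_mem b.toFun b.const)
        (fun i => by rw [sig_X, show 1 + (k + 1) = k + 2 by ring]; exact hb i) _ _ (ha i)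
      rw [show 2 + (k + 1) = k + 3 by ring] at h2
      rw [one_toFun, map_sub, sig_X] at h1 h2
      rw [mul_sig, mul_sig]
      convert Ideal.sub_mem _ h2 h1 using 1
      ring)
    (by
      intro k x hx
      let W : Submodule ℂ (Fin (m + 2) → PS (m + 2)) := ordV (m + 2) (k + 3) ⊔
        ((ordV (m + 2) (k + 2)).map (1 - rho (A 0)) ⊔
        ((ordV (m + 2) (k + 2)).map (rho (A 0) * (1 - rho (A 1))) ⊔
        (ordV (m + 2) (k + 2)).map (rho (A 0) * rho (A 1) * (1 - rho (A 2)))))
      have hm : ∀ a, ∀ v ∈ ordV (m + 2) (k + 2), v - rho (A a) v ∈ ordV (m + 2) (k + 2) :=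
        fun a v hv => Submodule.sub_mem _ hv (rho_mem _ hv)
      have w0 : ∀ v ∈ ordV (m + 2) (k + 2), v - rho (A 0) v ∈ W := fun v hv =>
        Submodule.mem_sup_right (Submodule.mem_sup_left ⟨v, hv, rfl⟩)
      have w1 : ∀ v ∈ ordV (m + 2) (k + 2), v - rho (A 1) v ∈ W := fun v hv => by
        have h1 : rho (A 0) (v - rho (A 1) v) ∈ W := Submodule.mem_sup_right
          (Submodule.mem_sup_right (Submodule.mem_sup_left ⟨v, hv, rfl⟩))
        have := W.add_mem (w0 _ (hm 1 v hv)) h1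
        rwa [sub_add_cancel] at this
      have w2 : ∀ v ∈ ordV (m + 2) (k + 2), v - rho (A 2) v ∈ W := fun v hv => by
        have h1 : rho (A 0) (rho (A 1) (v - rho (A 2) v)) ∈ W := Submodule.mem_sup_right
          (Submodule.mem_sup_right (Submodule.mem_sup_right ⟨v, hv, rfl⟩))
        have h2 := W.add_mem (w0 _ (rho_mem (A 1) (hm 2 v hv))) h1
        rw [sub_add_cancel] at h2
        have := W.add_mem (w1 _ (hm 2 v hv)) h2
        rwa [sub_add_cancel] at this
      have h1 := hspan k W le_sup_left (fun a => by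
          fin_cases a
          exacts [w0, w1, w2])
        (show (fun i => x.toFun i - X i) ∈ _ from mem_ordV.2 ((hc _ _ _).1 hx))
      obtain ⟨r, hr, t, ht, e⟩ := Submodule.mem_sup.1 h1
      obtain ⟨_, ⟨v0, hv0, rfl⟩, t', ht', rfl⟩ := Submodule.mem_sup.1 ht
      obtain ⟨_, ⟨v1, hv1, rfl⟩, _, ⟨v2, hv2, rfl⟩, rfl⟩ := Submodule.mem_sup.1 ht'
      obtain ⟨h0, hh0, c0⟩ := delta_cm (hJc 0) hv0
      obtain ⟨h1, hh1, c1⟩ := delta_cm (hJc 1) hv1
      obtain ⟨h2, hh2, c2⟩ := delta_cm (hJc 2) hv2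
      refine ⟨![h0, h1, h2], fun a => ?_, (hc _ _ _).2 fun i => ?_⟩
      · fin_cases a
        exacts [(hc _ _ _).2 hh0, (hc _ _ _).2 hh1, (hc _ _ _).2 hh2]
      have h3 := delta_mul
        (Submodule.add_mem _ (hm 0 v0 hv0) (rho_mem (A 0) (hm 1 v1 hv1)))
        (rho_mem (A 0) (rho_mem (A 1) (hm 2 v2 hv2)))
        (delta_mul (hm 0 v0 hv0) (rho_mem (A 0) (hm 1 v1 hv1)) c0 (delta_conj (hJc 0) c1))
        (delta_conj (hJc 0) (delta_conj (hJc 1) c2)) i
      have h4 : r i + ((v0 - rho (A 0) v0) i + (rho (A 0) (v1 - rho (A 1) v1) i +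
          rho (A 0) (rho (A 1) (v2 - rho (A 2) v2)) i)) = x.toFun i - X i := congrFun e i
      simp only [Pi.add_apply] at h3
      have h5 : prod3 J ![h0, h1, h2] = cm h0 (J 0) * (J 0 * cm h1 (J 1) * J 0) *
          (J 0 * (J 1 * cm h2 (J 2) * J 1) * J 0) := rfl
      rw [h5]
      convert Ideal.sub_mem _ (mem_ordV.1 hr i) h3 using 1
      linear_combination -h4)
    f ((hc _ _ _).2 fun i => by
      have := sub_lin_mem (f.const i)
      have e : ∀ j, coeff (Finsupp.single j 1) (f.toFun i) = if i = j then 1 else 0 := fun j =>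
        (congrFun (congrFun hf i) j).trans (Matrix.one_apply ..)
      simpa [e, one_toFun] using this)

theorem jac_one : jac (1 : FormalMap n).toFun = 1 := jac_X

theorem det_sq {s : FormalMap n} (h : s * s = 1) :
    (jac s.toFun).det * (jac s.toFun).det = 1 := by
  rw [← Matrix.det_mul, ← jac_mul, h, jac_one, Matrix.det_one]

theorem five (m : ℕ) (f : FormalMap (m + 2)) (hf : (jac f.toFun).det * (jac f.toFun).det = 1)
    (hs : ¬ ∃ c : ℂ, jac f.toFun = c • 1) : ∃ s₁ s₂ s₃ s₄ s₅ : FormalMap (m + 2),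
      s₁ * s₁ = 1 ∧ s₂ * s₂ = 1 ∧ s₃ * s₃ = 1 ∧ s₄ * s₄ = 1 ∧ s₅ * s₅ = 1 ∧
        f = s₁ * s₂ * s₃ * s₄ * s₅ := by
  obtain ⟨J, hJ, ⟨μ, hμ, hC⟩, hT⟩ := tangent m
  obtain ⟨K₁, K₂, P, P', h1, h2, hP, e⟩ := two_inv_mul hμ hC hs hf (by
    have a := det_sq (hJ 0)
    have b := det_sq (hJ 1)
    have c := det_sq (hJ 2)
    rw [jac_mul, jac_mul, Matrix.det_mul, Matrix.det_mul, mul_mul_mul_comm, c, mul_mul_mul_comm,
      a, b]
    simp)
  obtain ⟨k₁, hk₁, hk₁', -⟩ := exists_lin K₁ h1
  obtain ⟨k₂, hk₂, hk₂', -⟩ := exists_lin K₂ h2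
  have hPd : P.det ≠ 0 := left_ne_zero_of_mul (by rw [← Matrix.det_mul, hP]; simp)
  let p : FormalMap (m + 2) := ⟨lin P, lin_const _, by rw [jac_lin]; exact hPd⟩
  have hp : jac p.toFun = P := jac_lin P
  have hinv : ∀ (x : FormalMap (m + 2)) (M : Matrix (Fin (m + 2)) (Fin (m + 2)) ℂ),
      jac (x⁻¹).toFun * (jac x.toFun * M) = M := fun x M => by
    rw [← mul_assoc, ← jac_mul, inv_mul_cancel, jac_one, one_mul]
  have hK : ∀ K M : Matrix (Fin (m + 2)) (Fin (m + 2)) ℂ, K * K = 1 → K * (K * M) = M :=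
    fun K M h => by rw [← mul_assoc, h, one_mul]
  obtain ⟨g, hg⟩ := hT (p⁻¹ * (k₂ * k₁ * f) * p * (J 0 * J 1 * J 2)⁻¹) (by
    have h3 : jac (p⁻¹ * (k₂ * k₁ * f) * p).toFun = jac (J 0 * J 1 * J 2).toFun := by
      rw [jac_mul, jac_mul, jac_mul, jac_mul, hk₁, hk₂, e, hp]
      simp only [mul_assoc, hK _ _ h1, hK _ _ h2]
      rw [mul_eq_one_comm.1 hP, mul_one, ← hp, hinv]
    rw [jac_mul, h3, ← jac_mul, mul_inv_cancel, jac_one])
  have h4 : ∀ b, p * (g b * J b * (g b)⁻¹) * p⁻¹ * (p * (g b * J b * (g b)⁻¹) * p⁻¹) = 1 :=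
    fun b => by rw [conj_mul, conj_mul, hJ, mul_one, mul_inv_cancel, mul_one, mul_inv_cancel]
  refine ⟨k₁, k₂, _, _, _, hk₁', hk₂', h4 0, h4 1, h4 2, ?_⟩
  rw [mul_assoc (k₁ * k₂), mul_assoc (k₁ * k₂), conj_mul, conj_mul, ← prod3_mul J g hJ, ← hg,
    inv_mul_cancel_right]
  simp only [mul_assoc, mul_inv_cancel_left, mul_inv_cancel, mul_one]
  rw [← mul_assoc k₂ k₂, hk₂', one_mul, ← mul_assoc, hk₁', one_mul]

/-- For `n ≥ 2` every formal map with Jacobian determinant `1` or `-1` at the origin is a product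
of six involutions. -/
theorem result (n : ℕ) (hn : 2 ≤ n) (f : FormalMap n)
    (hf : (jac f.toFun).det = 1 ∨ (jac f.toFun).det = -1) :
    ∃ s : Fin 6 → FormalMap n, (∀ a, s a * s a = 1) ∧ f = s 0 * s 1 * s 2 * s 3 * s 4 * s 5 := by
  obtain ⟨m, rfl⟩ : ∃ m, n = m + 2 := ⟨n - 2, by omega⟩
  have hf2 := mul_self_eq_one_iff.2 hf
  by_cases hs : ∃ c : ℂ, jac f.toFun = c • 1
  · obtain ⟨c, hc⟩ := hs
    obtain ⟨k, hk, hk', -⟩ := exists_lin (shear m) shear_sq
    obtain ⟨s₁, s₂, s₃, s₄, s₅, h1, h2, h3, h4, h5, e⟩ := five m (f * k) (by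
      rw [jac_mul, Matrix.det_mul, mul_mul_mul_comm, hf2, det_sq hk', one_mul]) (by
      rintro ⟨c', h⟩
      rw [jac_mul, hc, hk] at h
      have h1 := congrFun (congrFun h 0) 1
      have h2 : c = 0 := by simpa [shear] using h1
      exact f.det_ne (by rw [hc, h2, zero_smul, Matrix.det_zero]))
    refine ⟨![s₁, s₂, s₃, s₄, s₅, k], fun a => ?_, ?_⟩
    · fin_cases a
      exacts [h1, h2, h3, h4, h5, hk']
    · show f = s₁ * s₂ * s₃ * s₄ * s₅ * k
      rw [← e, mul_assoc, hk', mul_one]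
  · obtain ⟨s₁, s₂, s₃, s₄, s₅, h1, h2, h3, h4, h5, e⟩ := five m f hf2 hs
    refine ⟨![s₁, s₂, s₃, s₄, s₅, 1], fun a => ?_, ?_⟩
    · fin_cases a
      exacts [h1, h2, h3, h4, h5, one_mul 1]
    · show f = s₁ * s₂ * s₃ * s₄ * s₅ * 1
      rw [mul_one, e]

end Pool.Agent.Results.MP_9aaefc_al.SixInvolutions
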